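import Mathlib

namespace Pool.Agent.Results.MP_4671c3_co.No

universe u

/-- Finite sets of triples (row, column, symbol). -/
abbrev Tr := Finset (ℕ × ℕ × ℕ)

/-- Any two coordinates of a triple determine the third. -/
def IsPLS (P : Tr) : Prop :=
  ∀ x ∈ P, ∀ y ∈ P, (x.1 = y.1 ∧ x.2.1 = y.2.1 ∨ x.1 = y.1 ∧ x.2.2 = y.2.2 ∨
    x.2.1 = y.2.1 ∧ x.2.2 = y.2.2) → x = y

/-- Latin bitrades. -/
def IsBitrade (W B : Tr) : Prop :=
  W.Nonempty ∧ B.Nonempty ∧ IsPLS W ∧ IsPLS B ∧
  (∀ r c, (∃ s, (r, c, s) ∈ W) ↔ ∃ s, (r, c, s) ∈ B) ∧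
  (∀ r s, (∃ c, (r, c, s) ∈ W) ↔ ∃ c, (r, c, s) ∈ B) ∧
  (∀ c s, (∃ r, (r, c, s) ∈ W) ↔ ∃ r, (r, c, s) ∈ B) ∧
  Disjoint W B

/-- `P` embeds in the abelian group `G`. -/
def Embeds (P : Tr) (G : Type u) [AddCommGroup G] : Prop :=
  ∃ α β γ : ℕ → G,
    (∀ x ∈ P, ∀ y ∈ P, α x.1 = α y.1 → x.1 = y.1) ∧
    (∀ x ∈ P, ∀ y ∈ P, β x.2.1 = β y.2.1 → x.2.1 = y.2.1) ∧
    (∀ x ∈ P, ∀ y ∈ P, γ x.2.2 = γ y.2.2 → x.2.2 = y.2.2) ∧
    ∀ x ∈ P, α x.1 + β x.2.1 = γ x.2.2

/-- Both mates embed in some abelian group. -/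
def BothEmbed (W B : Tr) : Prop :=
  ∃ (G : Type u) (_ : AddCommGroup G), Embeds W G ∧ Embeds B G

/-- The ranks of the finitely generated abelian groups in which both mates embed. -/
def ranks (W B : Tr) : Set ℕ :=
  {k | ∃ (G : Type) (_ : AddCommGroup G) (_ : AddGroup.FG G),
    AddGroup.rank G = k ∧ Embeds W G ∧ Embeds B G}

/-- The least rank of an abelian group in which both mates embed. -/
noncomputable def rho (W B : Tr) : ℕ := sInf (ranks W B)

abbrev C := AddCircle (1 : ℚ)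

open Classical in
theorem half {G : Type u} [AddCommGroup G] (D : Finset G) (hD : ∀ a ∈ D, a ≠ 0) :
    ∃ c : G →+ C, 2 * (D.filter (fun a => c a = 0)).card ≤ D.card := by
  induction D using Finset.strongInduction with
  | H D ih =>
    rcases D.eq_empty_or_nonempty with rfl | ⟨a, ha⟩
    · exact ⟨0, by simp⟩
    obtain ⟨e0, he⟩ := CharacterModule.exists_character_apply_ne_zero_of_ne_zero (hD a ha)
    let e : G →+ C := e0
    have he' : e a ≠ 0 := he
    have hss : D.filter (fun b => e b = 0) ⊂ D :=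
      Finset.filter_ssubset.mpr ⟨a, ha, he'⟩
    obtain ⟨c, hc⟩ := ih _ hss (fun b hb => hD b (Finset.mem_filter.mp hb).1)
    have hsplit := Finset.card_filter_add_card_filter_not (s := D) (fun b => e b = 0)
    have h1 := Finset.card_filter_add_card_filter_not (s := D.filter (fun b => c b = 0))
      (fun b => e b = 0)
    have h2 := Finset.card_filter_add_card_filter_not (s := D.filter (fun b => (c + e) b = 0))
      (fun b => e b = 0)
    have e1 : (D.filter (fun b => c b = 0)).filter (fun b => e b = 0) =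
        (D.filter (fun b => e b = 0)).filter (fun b => c b = 0) := Finset.filter_comm _ _ _
    have e2 : (D.filter (fun b => (c + e) b = 0)).filter (fun b => e b = 0) =
        (D.filter (fun b => e b = 0)).filter (fun b => c b = 0) := by
      ext b
      simp only [Finset.mem_filter, AddMonoidHom.add_apply]
      constructor
      · rintro ⟨⟨h, h'⟩, h''⟩
        rw [h'', add_zero] at h'
        exact ⟨⟨h, h''⟩, h'⟩
      · rintro ⟨⟨h, h'⟩, h''⟩
        exact ⟨⟨h, by rw [h', h'', add_zero]⟩, h'⟩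
    have h3 : ((D.filter (fun b => c b = 0)).filter (fun b => ¬ e b = 0)).card +
        ((D.filter (fun b => (c + e) b = 0)).filter (fun b => ¬ e b = 0)).card ≤
        (D.filter (fun b => ¬ e b = 0)).card := by
      rw [← Finset.card_union_of_disjoint]
      · apply Finset.card_le_card
        intro b hb
        simp only [Finset.mem_union, Finset.mem_filter] at hb ⊢
        tauto
      · rw [Finset.disjoint_left]
        intro b hb hb'
        simp only [Finset.mem_filter, AddMonoidHom.add_apply] at hb hb'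
        rw [hb.1.2, zero_add] at hb'
        exact hb.2 hb'.1.2
    rw [e1] at h1
    rw [e2] at h2
    by_cases h : 2 * (D.filter (fun a => c a = 0)).card ≤ D.card
    · exact ⟨c, h⟩
    · exact ⟨c + e, by omega⟩

theorem sep {G : Type u} [AddCommGroup G] (k : ℕ) (D : Finset G) (hD : ∀ a ∈ D, a ≠ 0)
    (hk : D.card < 2 ^ k) : ∃ φ : Fin k → G →+ C, ∀ a ∈ D, ∃ i, φ i a ≠ 0 := by
  classical
  induction k generalizing D with
  | zero =>
    have : D = ∅ := by simpa using hk
    subst this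
    exact ⟨fun _ => 0, by simp⟩
  | succ k ih =>
    obtain ⟨c, hc⟩ := half D hD
    obtain ⟨φ, hφ⟩ := ih (D.filter (fun a => c a = 0))
      (fun a ha => hD a (Finset.mem_filter.mp ha).1) (by rw [pow_succ] at hk; omega)
    refine ⟨Fin.cons c φ, fun a ha => ?_⟩
    by_cases h : c a = 0
    · obtain ⟨i, hi⟩ := hφ a (Finset.mem_filter.mpr ⟨ha, h⟩)
      exact ⟨i.succ, by simpa using hi⟩
    · exact ⟨0, by simpa using h⟩

theorem cyc (F : Finset C) : ∃ g : C, ∀ x ∈ F, ∃ n : ℤ, x = n • g := by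
  classical
  have : ∃ M : ℕ, 0 < M ∧ ∀ x ∈ F, ∃ n : ℤ, x = n • (((1 : ℚ) / M : ℚ) : C) := by
    induction F using Finset.induction_on with
    | empty => exact ⟨1, one_pos, by simp⟩
    | insert x F _ ih =>
      obtain ⟨M, hM, h⟩ := ih
      obtain ⟨q, rfl⟩ := QuotientAddGroup.mk_surjective x
      have hM' : (M : ℚ) ≠ 0 := by positivity
      have hd : (q.den : ℚ) ≠ 0 := by have := q.den_pos; positivity
      refine ⟨M * q.den, Nat.mul_pos hM q.den_pos, fun y hy => ?_⟩
      rcases Finset.mem_insert.mp hy with rfl | hy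
      · refine ⟨q.num * M, ?_⟩
        rw [← AddCircle.coe_zsmul]
        congr 1
        rw [zsmul_eq_mul]
        push_cast
        have := Rat.num_div_den q
        field_simp
        rw [← Rat.mul_den_eq_num]
      · obtain ⟨n, rfl⟩ := h y hy
        refine ⟨n * q.den, ?_⟩
        rw [← AddCircle.coe_zsmul, ← AddCircle.coe_zsmul]
        congr 1
        rw [zsmul_eq_mul, zsmul_eq_mul]
        push_cast
        field_simp
  obtain ⟨M, _, h⟩ := this
  exact ⟨_, h⟩

/-- A finite subset `T` of an abelian group with `|T|^2 < 2^k` maps injectively and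
additively into a group of rank at most `k`. -/
theorem small {G : Type u} [AddCommGroup G] (k : ℕ) (T : Finset G) (hk : T.card ^ 2 < 2 ^ k) :
    ∃ (H : Type) (_ : AddCommGroup H) (_ : AddGroup.FG H), AddGroup.rank H ≤ k ∧
      ∃ f : G → H, (∀ a ∈ T, ∀ b ∈ T, f a = f b → a = b) ∧
        ∀ a ∈ T, ∀ b ∈ T, ∀ c ∈ T, a + b = c → f a + f b = f c := by
  classical
  obtain ⟨φ, hφ⟩ := sep k (((T ×ˢ T).image (fun p => p.1 - p.2)).filter (fun a => a ≠ 0))
    (fun a ha => (Finset.mem_filter.mp ha).2) (by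
      refine lt_of_le_of_lt ((Finset.card_filter_le _ _).trans (Finset.card_image_le.trans ?_)) hk
      rw [Finset.card_product, sq])
  obtain ⟨g, hg⟩ := cyc ((Finset.univ ×ˢ T).image (fun p : Fin k × G => φ p.1 p.2))
  let S : Finset (Fin k → C) := Finset.univ.image (fun i => Pi.single i g)
  have hmem : ∀ a ∈ T, (fun i => φ i a) ∈ AddSubgroup.closure (S : Set (Fin k → C)) := by
    intro a ha
    rw [← Finset.univ_sum_single (fun i => φ i a)]
    apply AddSubgroup.sum_mem
    intro i _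
    obtain ⟨n, hn⟩ := hg (φ i a) (Finset.mem_image.mpr ⟨(i, a), by simp [ha], rfl⟩)
    rw [hn, Pi.single_smul]
    exact AddSubgroup.zsmul_mem _ (AddSubgroup.subset_closure (by simp [S])) n
  refine ⟨AddSubgroup.closure (S : Set (Fin k → C)), inferInstance, inferInstance,
    (AddSubgroup.rank_closure_finset_le_card S).trans (Finset.card_image_le.trans (by simp)),
    fun a => if h : a ∈ T then ⟨fun i => φ i a, hmem a h⟩ else 0, ?_, ?_⟩
  · intro a ha b hb hab
    simp only [dif_pos ha, dif_pos hb] at hab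
    by_contra hne
    obtain ⟨i, hi⟩ := hφ (a - b) (Finset.mem_filter.mpr ⟨Finset.mem_image.mpr
      ⟨(a, b), Finset.mem_product.mpr ⟨ha, hb⟩, rfl⟩, sub_ne_zero.mpr hne⟩)
    have := congrFun (congrArg Subtype.val hab) i
    exact hi (by rw [map_sub]; exact sub_eq_zero.mpr this)
  · intro a ha b hb c hc habc
    simp only [dif_pos ha, dif_pos hb, dif_pos hc]
    apply Subtype.ext
    funext i
    show φ i a + φ i b = φ i c
    rw [← map_add, habc]

theorem card_le {W B : Tr} (h : IsBitrade W B) : B.card ≤ W.card := by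
  obtain ⟨-, -, -, hB, hc, -⟩ := h
  have h1 : (B.image (fun x => (x.1, x.2.1))).card = B.card := by
    apply Finset.card_image_of_injOn
    intro x hx y hy hxy
    simp only [Prod.mk.injEq] at hxy
    exact hB x hx y hy (Or.inl hxy)
  rw [← h1]
  refine le_trans (Finset.card_le_card ?_) (Finset.card_image_le (s := W)
    (f := fun x => (x.1, x.2.1)))
  intro p hp
  obtain ⟨x, hx, rfl⟩ := Finset.mem_image.mp hp
  obtain ⟨s, hs⟩ := (hc x.1 x.2.1).mpr ⟨x.2.2, hx⟩
  exact Finset.mem_image.mpr ⟨_, hs, rfl⟩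

theorem bound {W B : Tr} (h : IsBitrade W B) (he : BothEmbed.{u} W B) :
    ∃ k ∈ ranks W B, k ≤ 2 * Nat.log 2 W.card + 8 := by
  classical
  obtain ⟨G, _, ⟨α, β, γ, h1, h2, h3, h4⟩, α', β', γ', h1', h2', h3', h4'⟩ := he
  let T : Finset G := W.image (fun x => α x.1) ∪ W.image (fun x => β x.2.1) ∪
    W.image (fun x => γ x.2.2) ∪ B.image (fun x => α' x.1) ∪ B.image (fun x => β' x.2.1) ∪
    B.image (fun x => γ' x.2.2)
  have hT : T.card ≤ 6 * W.card := by
    have := card_le h
    have a1 := Finset.card_image_le (s := W) (f := fun x => α x.1)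
    have a2 := Finset.card_image_le (s := W) (f := fun x => β x.2.1)
    have a3 := Finset.card_image_le (s := W) (f := fun x => γ x.2.2)
    have a4 := Finset.card_image_le (s := B) (f := fun x => α' x.1)
    have a5 := Finset.card_image_le (s := B) (f := fun x => β' x.2.1)
    have a6 := Finset.card_image_le (s := B) (f := fun x => γ' x.2.2)
    refine (Finset.card_union_le _ _).trans ?_
    refine (Nat.add_le_add_right (Finset.card_union_le _ _) _).trans ?_
    refine (Nat.add_le_add_right (Nat.add_le_add_right (Finset.card_union_le _ _) _) _).trans ?_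
    refine (Nat.add_le_add_right (Nat.add_le_add_right (Nat.add_le_add_right
      (Finset.card_union_le _ _) _) _) _).trans ?_
    refine (Nat.add_le_add_right (Nat.add_le_add_right (Nat.add_le_add_right
      (Nat.add_le_add_right (Finset.card_union_le _ _) _) _) _) _).trans ?_
    omega
  have hlt : W.card < 2 ^ (Nat.log 2 W.card + 1) := Nat.lt_pow_succ_log_self (by norm_num) _
  obtain ⟨H, i1, i2, hr, f, hf, hf'⟩ := small (2 * Nat.log 2 W.card + 8) T (by
    have e : 2 ^ (2 * Nat.log 2 W.card + 8) = (8 * 2 ^ (Nat.log 2 W.card + 1)) ^ 2 := by ring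
    rw [e]
    exact Nat.pow_lt_pow_left (by omega) (by norm_num))
  have m1 : ∀ x ∈ W, α x.1 ∈ T := fun x hx => by
    simp only [T, Finset.mem_union, Finset.mem_image]; refine .inl (.inl (.inl (.inl (.inl ⟨x, hx, rfl⟩))))
  have m2 : ∀ x ∈ W, β x.2.1 ∈ T := fun x hx => by
    simp only [T, Finset.mem_union, Finset.mem_image]; refine .inl (.inl (.inl (.inl (.inr ⟨x, hx, rfl⟩))))
  have m3 : ∀ x ∈ W, γ x.2.2 ∈ T := fun x hx => by
    simp only [T, Finset.mem_union, Finset.mem_image]; refine .inl (.inl (.inl (.inr ⟨x, hx, rfl⟩)))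
  have m4 : ∀ x ∈ B, α' x.1 ∈ T := fun x hx => by
    simp only [T, Finset.mem_union, Finset.mem_image]; refine .inl (.inl (.inr ⟨x, hx, rfl⟩))
  have m5 : ∀ x ∈ B, β' x.2.1 ∈ T := fun x hx => by
    simp only [T, Finset.mem_union, Finset.mem_image]; refine .inl (.inr ⟨x, hx, rfl⟩)
  have m6 : ∀ x ∈ B, γ' x.2.2 ∈ T := fun x hx => by
    simp only [T, Finset.mem_union, Finset.mem_image]; refine .inr ⟨x, hx, rfl⟩
  refine ⟨_, ⟨H, i1, i2, rfl, ⟨f ∘ α, f ∘ β, f ∘ γ, ?_, ?_, ?_, ?_⟩,
    ⟨f ∘ α', f ∘ β', f ∘ γ', ?_, ?_, ?_, ?_⟩⟩, hr⟩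
  · exact fun x hx y hy e => h1 x hx y hy (hf _ (m1 x hx) _ (m1 y hy) e)
  · exact fun x hx y hy e => h2 x hx y hy (hf _ (m2 x hx) _ (m2 y hy) e)
  · exact fun x hx y hy e => h3 x hx y hy (hf _ (m3 x hx) _ (m3 y hy) e)
  · exact fun x hx => hf' _ (m1 x hx) _ (m2 x hx) _ (m3 x hx) (h4 x hx)
  · exact fun x hx y hy e => h1' x hx y hy (hf _ (m4 x hx) _ (m4 y hy) e)
  · exact fun x hx y hy e => h2' x hx y hy (hf _ (m5 x hx) _ (m5 y hy) e)
  · exact fun x hx y hy e => h3' x hx y hy (hf _ (m6 x hx) _ (m6 y hy) e)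
  · exact fun x hx => hf' _ (m4 x hx) _ (m5 x hx) _ (m6 x hx) (h4' x hx)

theorem sq_le (L : ℕ) : L ^ 2 ≤ 2 * 2 ^ L := by
  induction L with
  | zero => simp
  | succ L ih =>
    have : L < 2 ^ L := Nat.lt_two_pow_self
    rcases Nat.lt_or_ge L 3 with h | h
    · interval_cases L <;> norm_num
    · rw [pow_succ 2 L]; nlinarith

theorem result :
    (∀ W B : Tr, IsBitrade W B → BothEmbed.{u} W B →
      (ranks W B).Nonempty ∧ rho W B ≤ 2 * Nat.log 2 W.card + 8) ∧
    ¬ ∃ (W B : ℕ → Tr) (c : ℝ), (∀ n, IsBitrade (W n) (B n) ∧ BothEmbed.{u} (W n) (B n)) ∧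
      Filter.Tendsto (fun n => (W n).card) Filter.atTop Filter.atTop ∧ 0 < c ∧
      ∀ n, c * (W n).card ≤ rho (W n) (B n) := by
  have main : ∀ W B : Tr, IsBitrade W B → BothEmbed.{u} W B →
      (ranks W B).Nonempty ∧ rho W B ≤ 2 * Nat.log 2 W.card + 8 := by
    intro W B h he
    obtain ⟨k, hk, hk'⟩ := bound h he
    exact ⟨⟨k, hk⟩, (Nat.sInf_le hk).trans hk'⟩
  refine ⟨main, ?_⟩
  rintro ⟨W, B, c, h, ht, hc, hr⟩
  obtain ⟨N, hN⟩ := exists_nat_gt (16 / c + 32 / c ^ 2 + 1)
  obtain ⟨n, hn⟩ := (Filter.tendsto_atTop.mp ht N).exists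
  have h1 := (main _ _ (h n).1 (h n).2).2
  have h2 := hr n
  have hp : (0 : ℝ) < 16 / c := by positivity
  have hp' : (0 : ℝ) < 32 / c ^ 2 := by positivity
  have hs : (N : ℝ) ≤ (W n).card := by exact_mod_cast hn
  have hs0 : (W n).card ≠ 0 := by
    intro h0
    rw [h0] at hs
    push_cast at hs
    linarith
  have h3 : Nat.log 2 (W n).card ^ 2 ≤ 2 * (W n).card :=
    (sq_le _).trans (Nat.mul_le_mul_left _ (Nat.pow_log_le_self 2 hs0))
  generalize Nat.log 2 (W n).card = L at h1 h3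
  generalize (W n).card = s at *
  have h1' : (rho (W n) (B n) : ℝ) ≤ 2 * L + 8 := by exact_mod_cast h1
  have h3' : (L : ℝ) ^ 2 ≤ 2 * s := by exact_mod_cast h3
  have a1 : 16 < c * s := by
    have : 16 / c < s := by linarith
    rw [div_lt_iff₀ hc] at this
    linarith
  have a2 : 32 < c ^ 2 * s := by
    have : 32 / c ^ 2 < s := by linarith
    rw [div_lt_iff₀ (by positivity)] at this
    linarith
  have a3 : c * s < 4 * L := by linarith
  have hs' : (0 : ℝ) < s := by linarith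
  have a4 : (c * s) ^ 2 < (4 * L) ^ 2 := by
    apply pow_lt_pow_left₀ a3 (by positivity) (by norm_num)
  nlinarith

end Pool.Agent.Results.MP_4671c3_co.No
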